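import Mathlib

set_option autoImplicit false

/-!
# Gap between liminf and limsup of the representation function of order two

Statements (as `Prop`s) of the pieces of the proof that a set `A` of nonnegative integers with
`r_A(n) ≥ K` for all large `n` satisfies `r_A(n) ≥ K + 2 √K` infinitely often, in the strong form that the mean
square of `r_A(n) - c` is at least `K` for every constant `c`.
-/

namespace Pool.Agent.Y727.RP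

open scoped Real

/-- Number of ordered pairs `(a, b)` of elements of `A` with `a + b = n`. -/
noncomputable def rep (A : Set ℕ) (n : ℕ) : ℕ :=
  Set.ncard {p : ℕ × ℕ | p.1 ∈ A ∧ p.2 ∈ A ∧ p.1 + p.2 = n}

/-- The power series with real coefficients `b` at the complex number `z`. -/
noncomputable def ps (b : ℕ → ℝ) (z : ℂ) : ℂ := ∑' n, (b n : ℂ) * z ^ n

/-- Indicator function of `A` with real values. -/
noncomputable def ind (A : Set ℕ) (n : ℕ) : ℝ := Set.indicator A (fun _ => (1 : ℝ)) n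

/-- RP-PARS: continuity and Parseval on a circle. -/
def S_PARS : Prop := ∀ (b : ℕ → ℝ) (ρ : ℝ), 0 ≤ ρ → Summable (fun n => |b n| * ρ ^ n) →
  Continuous (fun θ : ℝ => ps b (circleMap 0 ρ θ)) ∧
  Summable (fun n => (b n) ^ 2 * ρ ^ (2 * n)) ∧
  ∫ θ in (0 : ℝ)..(2 * π), ‖ps b (circleMap 0 ρ θ)‖ ^ 2 = 2 * π * ∑' n, (b n) ^ 2 * ρ ^ (2 * n)

/-- RP-CS: Cauchy-Schwarz on the circle. -/
def S_CS : Prop := ∀ g : ℝ → ℂ, Continuous g →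
  (∫ θ in (0 : ℝ)..(2 * π), ‖g θ‖) ≤ Real.sqrt (2 * π * ∫ θ in (0 : ℝ)..(2 * π), ‖g θ‖ ^ 2)

/-- RP-KER: the mean of `1 / |1 - z|` on the circle of radius `ρ` is `o((1 - ρ²)^(-1/2))`. -/
def S_KER : Prop := ∀ δ : ℝ, 0 < δ → ∃ ρ₀ : ℝ, 0 ≤ ρ₀ ∧ ρ₀ < 1 ∧ ∀ ρ : ℝ, ρ₀ < ρ → ρ < 1 →
  Real.sqrt (1 - ρ ^ 2) * (∫ θ in (0 : ℝ)..(2 * π), 1 / ‖1 - circleMap 0 ρ θ‖) ≤ δ

/-- RP-PROD: the square of the generating function of `A`. -/
def S_PROD : Prop := ∀ (A : Set ℕ) (z : ℂ), ‖z‖ < 1 →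
  Summable (fun n => |ind A n| * ‖z‖ ^ n) ∧ Summable (fun n => |(rep A n : ℝ)| * ‖z‖ ^ n) ∧
  ps (ind A) z ^ 2 = ps (fun n => (rep A n : ℝ)) z

/-- RP-ABEL: from partial sums to Abel sums. -/
def S_ABEL : Prop := ∀ (a : ℕ → ℝ) (B : ℝ) (M : ℕ), (∀ n, 0 ≤ a n) → 0 ≤ B →
  (∀ N, M ≤ N → ∑ n ∈ Finset.range N, a n ≤ B * N) →
  ∃ C : ℝ, 0 ≤ C ∧ ∀ x : ℝ, 0 ≤ x → x < 1 → Summable (fun n => a n * x ^ n) ∧
    ∑' n, a n * x ^ n ≤ C + B / (1 - x)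

/-- RP-ASM: the mean square theorem. -/
def S_MS : Prop := ∀ (A : Set ℕ) (K : ℝ) (n₀ : ℕ), 0 < K → (∀ n, n₀ ≤ n → K ≤ rep A n) →
  ∀ (c ε : ℝ), 0 < ε → ∀ M : ℕ, ∃ N, M ≤ N ∧
    (K - ε) * N ≤ ∑ n ∈ Finset.range N, ((rep A n : ℝ) - c) ^ 2

end Pool.Agent.Y727.RP
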